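import Pool.Agent.V11155.Rooks

/-!
# Super rooks on the diagonal of a diagonal Latin square: upper and lower bounds

The definitions (`Admissible`, `Dominates`, `rooks`, `f`, `fSym`) and the upper bounds are in
`Pool.Agent.V11155.Rooks`.
-/

set_option autoImplicit false

namespace Pool.Agent.Results.MP_420652_co.Asymptotic

open Finset Pool.Agent.V11155.Rooks

theorem rooks_univ {n : ℕ} (c : Fin n → Fin n → Fin n) : Dominates c Finset.univ :=
  fun p _ _ => ⟨p, Finset.mem_univ _, Or.inl rfl⟩

theorem rooks_spec {n : ℕ} (c : Fin n → Fin n → Fin n) :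
    ∃ D : Finset (Fin n), D.card = rooks c ∧ Dominates c D := by
  have hne : {k : ℕ | ∃ D : Finset (Fin n), D.card = k ∧ Dominates c D}.Nonempty :=
    ⟨_, Finset.univ, rfl, rooks_univ c⟩
  exact Nat.sInf_mem hne

theorem rooks_le_n {n : ℕ} (c : Fin n → Fin n → Fin n) : rooks c ≤ n := by
  have h : rooks c ≤ (Finset.univ : Finset (Fin n)).card :=
    Nat.sInf_le ⟨Finset.univ, rfl, rooks_univ c⟩
  simpa using h

theorem fSym_le_f (n : ℕ) (c : Fin n → Fin n → Fin n) (hc : Admissible c)
    (hs : ∀ p q, c p q = c q p) : rooks c ≤ fSym n ∧ rooks c ≤ f n := by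
  constructor
  · refine le_csSup ⟨n, ?_⟩ ⟨c, hc, hs, rfl⟩
    rintro k ⟨c', -, -, rfl⟩
    exact rooks_le_n c'
  · refine le_csSup ⟨n, ?_⟩ ⟨c, hc, rfl⟩
    rintro k ⟨c', -, rfl⟩
    exact rooks_le_n c'

/-- the identification of `Fin (2 m + 1)` with `ZMod (2 m + 1)` -/
def E (m : ℕ) : Fin (2 * m + 1) ≃ ZMod (2 * m + 1) := (ZMod.finEquiv (2 * m + 1)).toEquiv

/-- the midpoint square on `ZMod (2 m + 1)` -/
def mid (m : ℕ) (p q : Fin (2 * m + 1)) : Fin (2 * m + 1) :=
  (E m).symm ((E m p + E m q) * ((m + 1 : ℕ) : ZMod (2 * m + 1)))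

theorem two_half (m : ℕ) : (2 : ZMod (2 * m + 1)) * ((m + 1 : ℕ) : ZMod (2 * m + 1)) = 1 := by
  have h : ((2 * m + 1 : ℕ) : ZMod (2 * m + 1)) = 0 := ZMod.natCast_self _
  push_cast at h ⊢
  linear_combination h

theorem mid_eq (m : ℕ) (p q : Fin (2 * m + 1)) :
    E m (mid m p q) = (E m p + E m q) * ((m + 1 : ℕ) : ZMod (2 * m + 1)) := by
  unfold mid
  rw [Equiv.apply_symm_apply]

theorem mid_self (m : ℕ) (p : Fin (2 * m + 1)) : mid m p p = p := by
  apply (E m).injective
  rw [mid_eq]
  linear_combination (E m p) * two_half m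

theorem mid_admissible (m : ℕ) : Admissible (mid m) := by
  refine ⟨?_, ?_, ?_⟩
  · intro p k
    refine ⟨(E m).symm (2 * E m k - E m p), ?_⟩
    apply (E m).injective
    rw [mid_eq, Equiv.apply_symm_apply]
    linear_combination (E m k) * two_half m
  · intro q k
    refine ⟨(E m).symm (2 * E m k - E m q), ?_⟩
    apply (E m).injective
    rw [mid_eq, Equiv.apply_symm_apply]
    linear_combination (E m k) * two_half m
  · intro k
    exact ⟨k, mid_self m k⟩

theorem mid_symm (m : ℕ) (p q : Fin (2 * m + 1)) : mid m p q = mid m q p := by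
  unfold mid
  rw [add_comm (E m p) (E m q)]

theorem free_of_dominates (m : ℕ) (D : Finset (Fin (2 * m + 1))) (hD : Dominates (mid m) D) :
    ThreeAPFree (((Dᶜ).map (E m).toEmbedding : Finset (ZMod (2 * m + 1))) :
      Set (ZMod (2 * m + 1))) := by
  intro a ha b hb c hc hsum
  rw [Finset.mem_coe, Finset.mem_map] at ha hb hc
  obtain ⟨a, ha, rfl⟩ := ha
  obtain ⟨b, hb, rfl⟩ := hb
  obtain ⟨c, hc, rfl⟩ := hc
  rw [Finset.mem_compl] at ha hb hc
  simp only [Equiv.coe_toEmbedding] at hsum ⊢
  by_cases hac : a = c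
  · subst hac
    have h1 : (2 : ZMod (2 * m + 1)) * (E m a - E m b) = 0 := by linear_combination hsum
    have h2 := two_half m
    linear_combination (E m a - E m b) * (-h2) + ((m + 1 : ℕ) : ZMod (2 * m + 1)) * h1
  · exfalso
    obtain ⟨i, hi, h | h | h⟩ := hD a c hac
    · exact ha (h ▸ hi)
    · exact hc (h ▸ hi)
    · have hmid : mid m a c = b := by
        apply (E m).injective
        rw [mid_eq, hsum]
        linear_combination (E m b) * two_half m
      rw [mid_self, hmid] at h
      exact hb (h ▸ hi)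

theorem lower (ε : ℝ) (hε : 0 < ε) : ∃ N : ℕ, ∀ n : ℕ, N ≤ n → Odd n →
    ∃ c : Fin n → Fin n → Fin n, Admissible c ∧ (∀ p q, c p q = c q p) ∧
      (1 - ε) * n ≤ rooks c := by
  refine ⟨cornersTheoremBound ε, ?_⟩
  rintro n hn ⟨m, rfl⟩
  refine ⟨mid m, mid_admissible m, mid_symm m, ?_⟩
  obtain ⟨D, hD1, hD2⟩ := rooks_spec (mid m)
  have hfree := free_of_dominates m D hD2
  have hroth := roth_3ap_theorem (G := ZMod (2 * m + 1)) ε hε (by rw [ZMod.card]; exact hn)
    ((Dᶜ).map (E m).toEmbedding)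
  have hlt : ((Dᶜ : Finset (Fin (2 * m + 1))).card : ℝ) < ε * ((2 * m + 1 : ℕ) : ℝ) := by
    by_contra hcon
    push Not at hcon
    refine hroth ?_ hfree
    rw [ZMod.card, Finset.card_map]
    exact hcon
  have hcard : ((Dᶜ : Finset (Fin (2 * m + 1))).card : ℝ) = ((2 * m + 1 : ℕ) : ℝ) - D.card := by
    rw [Finset.card_compl, Fintype.card_fin, Nat.cast_sub]
    have := Finset.card_le_univ D
    simpa using this
  rw [hcard] at hlt
  rw [← hD1]
  linarith

/-- the prolongation of the midpoint square by one element `none` -/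
def prol (m : ℕ) : Option (ZMod (2 * m + 1)) → Option (ZMod (2 * m + 1)) →
    Option (ZMod (2 * m + 1))
  | none, none => none
  | none, some q => some ((2 * q - 1) * ((m + 1 : ℕ) : ZMod (2 * m + 1)))
  | some p, none => some ((2 * p + 1) * ((m + 1 : ℕ) : ZMod (2 * m + 1)))
  | some p, some q => if q = p + 1 then none else
      some ((p + q) * ((m + 1 : ℕ) : ZMod (2 * m + 1)))

/-- the identification of `Fin (2 m + 2)` with `ZMod (2 m + 1)` and one more element -/
def E' (m : ℕ) : Fin (2 * m + 1 + 1) ≃ Option (ZMod (2 * m + 1)) :=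
  (finSuccEquiv (2 * m + 1)).trans (Equiv.optionCongr (E m))

/-- the prolonged square on `Fin (2 m + 2)` -/
def pro (m : ℕ) (p q : Fin (2 * m + 1 + 1)) : Fin (2 * m + 1 + 1) :=
  (E' m).symm (prol m (E' m p) (E' m q))

theorem one_ne (m : ℕ) (hm : 1 ≤ m) : (1 : ZMod (2 * m + 1)) ≠ 0 := by
  have : Fact (1 < 2 * m + 1) := ⟨by omega⟩
  exact one_ne_zero

theorem prol_self (m : ℕ) (hm : 1 ≤ m) (x : Option (ZMod (2 * m + 1))) : prol m x x = x := by
  cases x with
  | none => rfl
  | some x =>
    have hx : ¬ x = x + 1 := by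
      intro h
      apply one_ne m hm
      linear_combination -h
    change (if x = x + 1 then none else some ((x + x) * ((m + 1 : ℕ) : ZMod (2 * m + 1)))) = some x
    rw [if_neg hx]
    congr 1
    linear_combination x * two_half m

theorem pro_eq (m : ℕ) (p q : Fin (2 * m + 1 + 1)) :
    E' m (pro m p q) = prol m (E' m p) (E' m q) := by
  unfold pro
  rw [Equiv.apply_symm_apply]

theorem pro_self (m : ℕ) (hm : 1 ≤ m) (p : Fin (2 * m + 1 + 1)) : pro m p p = p := by
  apply (E' m).injective
  rw [pro_eq, prol_self m hm]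

theorem prol_row (m : ℕ) (p k : Option (ZMod (2 * m + 1))) : ∃ q, prol m p q = k := by
  have h2 := two_half m
  cases p with
  | none =>
    cases k with
    | none => exact ⟨none, rfl⟩
    | some k =>
      refine ⟨some ((2 * k + 1) * ((m + 1 : ℕ) : ZMod (2 * m + 1))), ?_⟩
      change some _ = some k
      congr 1
      linear_combination ((2 * k + 1) * ((m + 1 : ℕ) : ZMod (2 * m + 1)) + k) * h2
  | some p =>
    cases k with
    | none =>
      refine ⟨some (p + 1), ?_⟩
      change (if p + 1 = p + 1 then none else _) = none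
      rw [if_pos rfl]
    | some k =>
      by_cases h : 2 * k - p = p + 1
      · refine ⟨none, ?_⟩
        change some _ = some k
        congr 1
        linear_combination k * h2 - ((m + 1 : ℕ) : ZMod (2 * m + 1)) * h
      · refine ⟨some (2 * k - p), ?_⟩
        change (if 2 * k - p = p + 1 then none else
          some ((p + (2 * k - p)) * ((m + 1 : ℕ) : ZMod (2 * m + 1)))) = some k
        rw [if_neg h]
        congr 1
        linear_combination k * h2

theorem prol_col (m : ℕ) (q k : Option (ZMod (2 * m + 1))) : ∃ p, prol m p q = k := by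
  have h2 := two_half m
  cases q with
  | none =>
    cases k with
    | none => exact ⟨none, rfl⟩
    | some k =>
      refine ⟨some ((2 * k - 1) * ((m + 1 : ℕ) : ZMod (2 * m + 1))), ?_⟩
      change some _ = some k
      congr 1
      linear_combination ((2 * k - 1) * ((m + 1 : ℕ) : ZMod (2 * m + 1)) + k) * h2
  | some q =>
    cases k with
    | none =>
      refine ⟨some (q - 1), ?_⟩
      change (if q = q - 1 + 1 then none else _) = none
      rw [if_pos (by ring)]
    | some k =>
      by_cases h : q = 2 * k - q + 1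
      · refine ⟨none, ?_⟩
        change some _ = some k
        congr 1
        linear_combination k * h2 + ((m + 1 : ℕ) : ZMod (2 * m + 1)) * h
      · refine ⟨some (2 * k - q), ?_⟩
        change (if q = 2 * k - q + 1 then none else
          some ((2 * k - q + q) * ((m + 1 : ℕ) : ZMod (2 * m + 1)))) = some k
        rw [if_neg h]
        congr 1
        linear_combination k * h2

theorem pro_admissible (m : ℕ) (hm : 1 ≤ m) : Admissible (pro m) := by
  refine ⟨?_, ?_, fun k => ⟨k, pro_self m hm k⟩⟩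
  · intro p k
    obtain ⟨q, hq⟩ := prol_row m (E' m p) (E' m k)
    refine ⟨(E' m).symm q, ?_⟩
    apply (E' m).injective
    rw [pro_eq, Equiv.apply_symm_apply, hq]
  · intro q k
    obtain ⟨p, hp⟩ := prol_col m (E' m q) (E' m k)
    refine ⟨(E' m).symm p, ?_⟩
    apply (E' m).injective
    rw [pro_eq, Equiv.apply_symm_apply, hp]

theorem free_of_dominates' (m : ℕ) (hm : 1 ≤ m) (D : Finset (Fin (2 * m + 1 + 1)))
    (hD : Dominates (pro m) D) :
    ThreeAPFree ((Finset.univ.filter (fun x : ZMod (2 * m + 1) => (E' m).symm (some x) ∉ D) :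
      Finset (ZMod (2 * m + 1))) : Set (ZMod (2 * m + 1))) := by
  intro a ha b hb c hc hsum
  simp only [Finset.coe_filter, Finset.mem_univ, true_and, Set.mem_ofPred_eq] at ha hb hc
  have h2 := two_half m
  by_cases hac : a = c
  · subst hac
    have h1 : (2 : ZMod (2 * m + 1)) * (a - b) = 0 := by linear_combination hsum
    linear_combination (a - b) * (-h2) + ((m + 1 : ℕ) : ZMod (2 * m + 1)) * h1
  · exfalso
    have key : ∀ p q : ZMod (2 * m + 1), p ≠ q → q ≠ p + 1 → p + q = b + b →
        (E' m).symm (some p) ∉ D → (E' m).symm (some q) ∉ D → False := by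
      intro p q hpq hq1 hpqb hp hq
      have hne : (E' m).symm (some p) ≠ (E' m).symm (some q) := by
        intro h
        exact hpq (Option.some_injective _ ((E' m).symm.injective h))
      obtain ⟨i, hi, h | h | h⟩ := hD _ _ hne
      · exact hp (h ▸ hi)
      · exact hq (h ▸ hi)
      · rw [pro_self m hm] at h
        have h' := congrArg (E' m) h
        rw [pro_eq, Equiv.apply_symm_apply, Equiv.apply_symm_apply] at h'
        have h3 : prol m (some p) (some q) = some b := by
          change (if q = p + 1 then none else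
            some ((p + q) * ((m + 1 : ℕ) : ZMod (2 * m + 1)))) = some b
          rw [if_neg hq1]
          congr 1
          rw [hpqb]
          linear_combination b * h2
        rw [h3] at h'
        apply hb
        rw [h', Equiv.symm_apply_apply]
        exact hi
    by_cases hc1 : c = a + 1
    · refine key c a (Ne.symm hac) ?_ (by rw [add_comm c a]; exact hsum) hc ha
      intro h
      have h20 : (2 : ZMod (2 * m + 1)) = 0 := by linear_combination -h - hc1
      rw [h20, zero_mul] at h2
      exact one_ne m hm h2.symm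
    · exact key a c hac hc1 hsum ha hc

theorem lower_even (ε : ℝ) (hε : 0 < ε) : ∃ N : ℕ, ∀ n : ℕ, N ≤ n → Even n →
    ∃ c : Fin n → Fin n → Fin n, Admissible c ∧ (1 - ε) * n ≤ rooks c := by
  obtain ⟨M, hM⟩ := exists_nat_gt (2 / ε)
  refine ⟨cornersTheoremBound (ε / 2) + M + 4, ?_⟩
  rintro n hn ⟨r, hr⟩
  obtain ⟨m, rfl⟩ : ∃ m, n = 2 * m + 1 + 1 := ⟨r - 1, by omega⟩
  have hm : 1 ≤ m := by omega
  refine ⟨pro m, pro_admissible m hm, ?_⟩
  obtain ⟨D, hD1, hD2⟩ := rooks_spec (pro m)
  have hfree := free_of_dominates' m hm D hD2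
  set A : Finset (ZMod (2 * m + 1)) :=
    Finset.univ.filter (fun x : ZMod (2 * m + 1) => (E' m).symm (some x) ∉ D) with hA
  have hroth := roth_3ap_theorem (G := ZMod (2 * m + 1)) (ε / 2) (by positivity)
    (by rw [ZMod.card]; omega) A
  have hlt : (A.card : ℝ) < ε / 2 * ((2 * m + 1 : ℕ) : ℝ) := by
    by_contra hcon
    push Not at hcon
    refine hroth ?_ hfree
    rw [ZMod.card]
    exact hcon
  have hle : (Dᶜ : Finset (Fin (2 * m + 1 + 1))).card ≤ A.card + 1 := by
    have hsub : (Dᶜ).map (E' m).toEmbedding ⊆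
        insert none (A.map ⟨some, Option.some_injective _⟩) := by
      intro x hx
      rw [Finset.mem_map] at hx
      obtain ⟨y, hy, rfl⟩ := hx
      rw [Finset.mem_compl] at hy
      simp only [Equiv.coe_toEmbedding]
      rw [Finset.mem_insert]
      cases hxy : E' m y with
      | none => exact Or.inl rfl
      | some z =>
        right
        rw [Finset.mem_map]
        refine ⟨z, ?_, rfl⟩
        rw [hA, Finset.mem_filter]
        refine ⟨Finset.mem_univ _, ?_⟩
        rw [← hxy, Equiv.symm_apply_apply]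
        exact hy
    have h1 := Finset.card_le_card hsub
    rw [Finset.card_map] at h1
    refine h1.trans ((Finset.card_insert_le _ _).trans ?_)
    rw [Finset.card_map]
  have hcard : ((Dᶜ : Finset (Fin (2 * m + 1 + 1))).card : ℝ) =
      ((2 * m + 1 + 1 : ℕ) : ℝ) - D.card := by
    rw [Finset.card_compl, Fintype.card_fin, Nat.cast_sub]
    have := Finset.card_le_univ D
    simpa using this
  have hle' : ((Dᶜ : Finset (Fin (2 * m + 1 + 1))).card : ℝ) ≤ A.card + 1 := by
    exact_mod_cast hle
  have hbig : 1 ≤ ε / 2 * ((2 * m + 1 + 1 : ℕ) : ℝ) := by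
    have h1 : (M : ℝ) ≤ ((2 * m + 1 + 1 : ℕ) : ℝ) := by
      exact_mod_cast (by omega : M ≤ 2 * m + 1 + 1)
    have h2 : 2 / ε ≤ ((2 * m + 1 + 1 : ℕ) : ℝ) := hM.le.trans h1
    rw [div_le_iff₀ hε] at h2
    linarith
  rw [← hD1]
  rw [hcard] at hle'
  push_cast at *
  nlinarith

theorem result :
    -- upper bounds
    (∀ n : ℕ, 1 ≤ n → (f n : ℝ) ≤ n - Real.sqrt (n / 3)) ∧
    (∀ n : ℕ, 1 ≤ n → (fSym n : ℝ) ≤ n - Real.sqrt (2 * n / 3)) ∧
    -- lower bounds
    (∀ ε : ℝ, 0 < ε → ∃ N : ℕ, ∀ n : ℕ, N ≤ n → (1 - ε) * n ≤ f n) ∧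
    (∀ ε : ℝ, 0 < ε → ∃ N : ℕ, ∀ n : ℕ, N ≤ n → Odd n → (1 - ε) * n ≤ fSym n) := by
  refine ⟨f_real, fSym_real, ?_, ?_⟩
  · intro ε hε
    obtain ⟨N, hN⟩ := lower ε hε
    obtain ⟨N', hN'⟩ := lower_even ε hε
    refine ⟨max N N', ?_⟩
    intro n hn
    rcases Nat.even_or_odd n with he | ho
    · obtain ⟨c, hc, hr⟩ := hN' n ((le_max_right _ _).trans hn) he
      refine hr.trans ?_
      have : rooks c ≤ f n := by
        refine le_csSup ⟨n, ?_⟩ ⟨c, hc, rfl⟩
        rintro k ⟨c', -, rfl⟩
        exact rooks_le_n c'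
      exact_mod_cast this
    · obtain ⟨c, hc, hs, hr⟩ := hN n ((le_max_left _ _).trans hn) ho
      refine hr.trans ?_
      exact_mod_cast (fSym_le_f n c hc hs).2
  · intro ε hε
    obtain ⟨N, hN⟩ := lower ε hε
    refine ⟨N, ?_⟩
    intro n hn hodd
    obtain ⟨c, hc, hs, hr⟩ := hN n hn hodd
    refine hr.trans ?_
    exact_mod_cast (fSym_le_f n c hc hs).1

end Pool.Agent.Results.MP_420652_co.Asymptotic
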